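import Mathlib
import Pool.Agent.W996.EC.Cv

/-! EC project: a regular function which is bounded at all places is constant. -/

set_option autoImplicit false

namespace Pool.Agent.W101.EC

open Pool.Agent.W996.EC
open Filter Topology Polynomial

/-- places are inherited by smaller domains -/
lemma place_mono {T : Set (ℂ × ℂ)} {t : ℂ → ℂ × ℂ} {c0 c : ℝ} (h : IsPlace T t c0)
    (hc : c ≤ c0) : IsPlace T t c := by
  obtain ⟨h1, h2, h3, h4⟩ := h
  have hsub : {w : ℂ | w.re < c} ⊆ {w | w.re < c0} := fun w hw =>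
    lt_of_lt_of_le (show w.re < c from hw) hc
  refine ⟨fun w hw => h1 w (hw.trans_le hc), h2.mono hsub, h3.mono hsub, fun g hg => ?_⟩
  rcases h4 g hg with h | ⟨l, G, c1, hG, hG0, hc1, h⟩
  · exact Or.inl fun w hw => h w (hw.trans_le hc)
  · refine Or.inr ⟨l, G, min c1 c, hG, hG0, min_le_right _ _, fun w hw => ?_⟩
    exact h w (hw.trans_le (min_le_left _ _))

lemma evalEval_sum (A : ℂ[X][X]) (z v : ℂ) :
    A.evalEval z v = ∑ i ∈ Finset.range (A.natDegree + 1), (A.coeff i).eval z * v ^ i := by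
  show eval z (eval (C v) A) = _
  rw [show eval (C v) A = ∑ i ∈ Finset.range (A.natDegree + 1), A.coeff i * (C v) ^ i from
    eval_eq_sum_range _, eval_finsetSum]
  refine Finset.sum_congr rfl fun i _ => ?_
  rw [eval_mul, eval_pow, eval_C]

lemma diff_evalEval (A : ℂ[X][X]) {φ : ℂ → ℂ} {z : ℂ} (hφ : DifferentiableAt ℂ φ z) :
    DifferentiableAt ℂ (fun z => A.evalEval z (φ z)) z := by
  simp only [evalEval_sum]
  refine DifferentiableAt.fun_sum fun i _ => ?_
  exact (A.coeff i).differentiable.differentiableAt.mul (hφ.pow i)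

/-- the roots over `z` -/
noncomputable def RR (F : ℂ[X][X]) (z : ℂ) : Finset ℂ := by
  classical exact (F.map (evalRingHom z)).roots.toFinset

lemma mem_RR {F : ℂ[X][X]} {h : ℂ[X]} (hC : Cov F h) {z : ℂ} (hz : h.eval z ≠ 0) (v : ℂ) :
    v ∈ RR F z ↔ (z, v) ∈ TT F h := by
  have hne : F.map (evalRingHom z) ≠ 0 := by
    intro h0
    have := (hC.good z hz).1
    rw [h0, natDegree_zero] at this
    have := hC.deg
    omega
  unfold RR
  rw [Multiset.mem_toFinset, mem_roots hne, IsRoot.def, map_evalRingHom_eval]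
  simp only [TT, Set.mem_ofPred_eq]
  exact ⟨fun h => ⟨h, hz⟩, fun h => h.1⟩

lemma card_RR {F : ℂ[X][X]} {h : ℂ[X]} (hC : Cov F h) {z : ℂ} (hz : h.eval z ≠ 0) :
    (RR F z).card = F.natDegree := by
  unfold RR
  rw [Multiset.toFinset_card_of_nodup (nodup_roots (hC.good z hz).2), ← (hC.good z hz).1]
  exact splits_iff_card_roots.1 (IsAlgClosed.splits _)

/-- the norm of `g - γ` -/
noncomputable def Nm (F : ℂ[X][X]) (g : ℂ × ℂ → ℂ) (γ : ℂ) (z : ℂ) : ℂ :=
  ∏ v ∈ RR F z, (g (z, v) - γ)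

lemma Nm_bound {F : ℂ[X][X]} {h : ℂ[X]} (hC : Cov F h) {g : ℂ × ℂ → ℂ} {γ z : ℂ} {B : ℝ}
    (hz : h.eval z ≠ 0) (hB : ∀ v, (z, v) ∈ TT F h → ‖g (z, v)‖ ≤ B) :
    ‖Nm F g γ z‖ ≤ (B + ‖γ‖) ^ F.natDegree := by
  unfold Nm
  rw [norm_prod, ← card_RR hC hz, ← Finset.prod_const]
  refine Finset.prod_le_prod (fun _ _ => norm_nonneg _) fun v hv => ?_
  exact (norm_sub_le _ _).trans (add_le_add_left (hB v ((mem_RR hC hz v).1 hv)) _)

lemma Nm_diff {F : ℂ[X][X]} {h : ℂ[X]} (h4 : S_loc) (hC : Cov F h) {g : ℂ × ℂ → ℂ}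
    (hg : Reg (TT F h) g) (γ : ℂ) {z0 : ℂ} (hz : h.eval z0 ≠ 0) :
    DifferentiableAt ℂ (Nm F g γ) z0 := by
  classical
  obtain ⟨A, B, hAB⟩ := hg
  have hloc : ∀ v : ℂ, ∃ φ : ℂ → ℂ, v ∈ RR F z0 → (∀ᶠ z in 𝓝 z0, DifferentiableAt ℂ φ z) ∧
      φ z0 = v ∧ ∀ᶠ z in 𝓝 z0, (z, φ z) ∈ TT F h := by
    intro v
    by_cases hv : v ∈ RR F z0
    · obtain ⟨ρ, φ, hρ, hφ, hφ0, hT, -⟩ := h4 F h hC z0 v ((mem_RR hC hz v).1 hv)
      refine ⟨φ, fun _ => ⟨?_, hφ0, ?_⟩⟩
      · filter_upwards [Metric.ball_mem_nhds z0 hρ] with z hzb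
        exact (hφ z hzb).differentiableAt (Metric.isOpen_ball.mem_nhds hzb)
      · filter_upwards [Metric.ball_mem_nhds z0 hρ] with z hzb
        exact hT z hzb
    · exact ⟨id, fun h => absurd h hv⟩
  choose φ hφ using hloc
  have e1 : ∀ᶠ z in 𝓝 z0, ∀ v ∈ RR F z0, (z, φ v z) ∈ TT F h :=
    (Filter.eventually_all_finset _).2 fun v hv => (hφ v hv).2.2
  have e2 : ∀ᶠ z in 𝓝 z0, ∀ v ∈ RR F z0, ∀ v' ∈ RR F z0, v ≠ v' → φ v z ≠ φ v' z := by
    refine (Filter.eventually_all_finset _).2 fun v hv => ?_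
    refine (Filter.eventually_all_finset _).2 fun v' hv' => ?_
    by_cases hvv : v = v'
    · exact Filter.Eventually.of_forall fun z h => absurd hvv h
    have c1 : ContinuousAt (φ v) z0 := (hφ v hv).1.self_of_nhds.continuousAt
    have c2 : ContinuousAt (φ v') z0 := (hφ v' hv').1.self_of_nhds.continuousAt
    have c3 : ContinuousAt (fun z => φ v z - φ v' z) z0 := c1.sub c2
    have hne : φ v z0 - φ v' z0 ≠ 0 := by
      rw [(hφ v hv).2.1, (hφ v' hv').2.1]; exact sub_ne_zero.2 hvv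
    filter_upwards [c3.eventually_ne hne] with z hz' _
    exact fun h => hz' (by rw [h, sub_self])
  have e3 : ∀ᶠ z in 𝓝 z0, h.eval z ≠ 0 := h.continuous.continuousAt.eventually_ne hz
  have key : Nm F g γ =ᶠ[𝓝 z0] fun z => ∏ v ∈ RR F z0,
      (A.evalEval z (φ v z) / B.evalEval z (φ v z) - γ) := by
    filter_upwards [e1, e2, e3] with z h1 h2 h3
    have him : (RR F z0).image (fun v => φ v z) = RR F z := by
      apply Finset.eq_of_subset_of_card_le
      · intro u hu
        obtain ⟨v, hv, rfl⟩ := Finset.mem_image.1 hu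
        exact (mem_RR hC h3 _).2 (h1 v hv)
      · rw [card_RR hC h3, Finset.card_image_of_injOn, card_RR hC hz]
        intro v hv v' hv' hvv
        by_contra hne
        exact h2 v hv v' hv' hne hvv
    unfold Nm
    rw [← him, Finset.prod_image]
    · refine Finset.prod_congr rfl fun v hv => ?_
      rw [(hAB _ (h1 v hv)).2]
    · intro v hv v' hv' hvv
      by_contra hne
      exact h2 v hv v' hv' hne hvv
  refine DifferentiableAt.congr_of_eventuallyEq ?_ key
  refine DifferentiableAt.fun_finsetProd fun v hv => ?_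
  have hd := (hφ v hv).1.self_of_nhds
  have hT := (hφ v hv).2.2.self_of_nhds
  exact ((diff_evalEval A hd).div (diff_evalEval B hd) (hAB _ hT).1).sub_const γ

/-- Riemann and Liouville -/
lemma const_of_bounded {h : ℂ[X]} (hh : h ≠ 0) {N : ℂ → ℂ}
    (hd : ∀ z, h.eval z ≠ 0 → DifferentiableAt ℂ N z)
    (hb : ∀ τ, h.eval τ = 0 → ∃ B : ℝ, ∀ᶠ z in 𝓝 τ, h.eval z ≠ 0 → ‖N z‖ ≤ B)
    (hi : ∃ B R : ℝ, ∀ z : ℂ, R < ‖z‖ → h.eval z ≠ 0 → ‖N z‖ ≤ B) :
    ∃ c, ∀ z, h.eval z ≠ 0 → N z = c := by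
  classical
  set M : ℂ → ℂ := fun z => if h.eval z ≠ 0 then N z else limUnder (𝓝[≠] z) N with hM
  have hiso : ∀ τ, ∀ᶠ z in 𝓝 τ, z ≠ τ → h.eval z ≠ 0 := by
    intro τ
    have hfin : {z | h.eval z = 0}.Finite := by
      refine (h.roots.toFinset.finite_toSet).subset fun z hz => ?_
      rw [Finset.mem_coe, Multiset.mem_toFinset, mem_roots hh]
      exact hz
    have hcl : IsClosed ({z | h.eval z = 0} \ {τ}) := (hfin.subset Set.sdiff_subset).isClosed
    have : ({z | h.eval z = 0} \ {τ})ᶜ ∈ 𝓝 τ := hcl.isOpen_compl.mem_nhds (by simp)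
    filter_upwards [this] with z hz hne h0
    exact hz ⟨h0, hne⟩
  have hMd : Differentiable ℂ M := by
    intro τ
    by_cases hτ : h.eval τ = 0
    · obtain ⟨B, hB⟩ := hb τ hτ
      obtain ⟨r, hr, hball⟩ := Metric.eventually_nhds_iff_ball.1 ((hiso τ).and hB)
      have hD : DifferentiableOn ℂ N (Metric.ball τ r \ {τ}) := fun z hz =>
        (hd z ((hball z hz.1).1 hz.2)).differentiableWithinAt
      have hBdd : BddAbove (norm ∘ N '' (Metric.ball τ r \ {τ})) := by
        refine ⟨B, ?_⟩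
        rintro _ ⟨z, hz, rfl⟩
        exact (hball z hz.1).2 ((hball z hz.1).1 hz.2)
      have h1 := Complex.differentiableOn_update_limUnder_of_bddAbove
        (Metric.ball_mem_nhds τ hr) hD hBdd
      have h2 : DifferentiableOn ℂ M (Metric.ball τ r) := by
        refine h1.congr fun z hz => ?_
        by_cases hzτ : z = τ
        · subst hzτ
          rw [Function.update_self, hM]
          simp only [hτ, ne_eq, not_true_eq_false, if_false]
        · rw [Function.update_of_ne hzτ, hM]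
          simp only [(hball z hz).1 hzτ, ne_eq, not_false_eq_true, if_true]
      exact (h2 τ (Metric.mem_ball_self hr)).differentiableAt (Metric.ball_mem_nhds τ hr)
    · have : M =ᶠ[𝓝 τ] N := by
        filter_upwards [h.continuous.continuousAt.eventually_ne hτ] with z hz
        rw [hM]
        simp only [hz, ne_eq, not_false_eq_true, if_true]
      exact (hd τ hτ).congr_of_eventuallyEq this
  obtain ⟨B, R, hBR⟩ := hi
  have hMb : Bornology.IsBounded (Set.range M) := by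
    -- outside a large ball, all roots are inside
    obtain ⟨R1, hR1⟩ : ∃ R1 : ℝ, ∀ z : ℂ, h.eval z = 0 → ‖z‖ ≤ R1 := by
      have hfin : {z | h.eval z = 0}.Finite := by
        refine (h.roots.toFinset.finite_toSet).subset fun z hz => ?_
        rw [Finset.mem_coe, Multiset.mem_toFinset, mem_roots hh]
        exact hz
      obtain ⟨R1, hR1⟩ := hfin.isBounded.exists_norm_le
      exact ⟨R1, fun z hz => hR1 z hz⟩
    obtain ⟨B2, hB2⟩ := (isCompact_closedBall (0:ℂ) (max R R1)).exists_bound_of_continuousOn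
      hMd.continuous.continuousOn
    rw [isBounded_iff_forall_norm_le]
    refine ⟨max B B2, ?_⟩
    rintro _ ⟨z, rfl⟩
    by_cases hz : ‖z‖ ≤ max R R1
    · exact (hB2 z (by simpa using hz)).trans (le_max_right _ _)
    · have hz' := not_le.1 hz
      have hz1 : R < ‖z‖ := (le_max_left _ _).trans_lt hz'
      have hz2 : R1 < ‖z‖ := (le_max_right _ _).trans_lt hz'
      have hne : h.eval z ≠ 0 := fun h0 => absurd (hR1 z h0) (not_le.2 hz2)
      have : M z = N z := by
        rw [hM]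
        simp only [hne, ne_eq, not_false_eq_true, if_true]
      rw [this]
      exact (hBR z hz1 hne).trans (le_max_left _ _)
  obtain ⟨c, hc⟩ := hMd.exists_const_forall_eq_of_bounded hMb
  refine ⟨c, fun z hz => ?_⟩
  have := hc z
  rw [hM] at this
  simpa only [hz, ne_eq, not_false_eq_true, if_true] using this

/-- uniform bounds over finite families -/
lemma fam_bound {K : ℕ} {t : Fin K → ℂ → ℂ × ℂ} {g : ℂ × ℂ → ℂ}
    (hb : ∀ k, ∃ B c1 : ℝ, ∀ w : ℂ, w.re < c1 → ‖g (t k w)‖ ≤ B) (c0 : ℝ) :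
    ∃ B c1 : ℝ, c1 ≤ c0 ∧ ∀ k, ∀ w : ℂ, w.re < c1 → ‖g (t k w)‖ ≤ B := by
  choose Bf cf hf using hb
  obtain ⟨B, hB⟩ := Finset.exists_le (Finset.univ.image Bf)
  obtain ⟨c, hc⟩ := Finset.exists_le (α := ℝᵒᵈ) (Finset.univ.image fun k => OrderDual.toDual (cf k))
  refine ⟨B, min (OrderDual.ofDual c) c0, min_le_right _ _, fun k w hw => ?_⟩
  have h1 : Bf k ≤ B := hB _ (Finset.mem_image_of_mem _ (Finset.mem_univ k))
  have h2 : OrderDual.ofDual c ≤ cf k :=
    hc _ (Finset.mem_image_of_mem _ (Finset.mem_univ k))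
  exact (hf k w ((hw.trans_le (min_le_left _ _)).trans_le h2)).trans h1

theorem t_bdd (h1 : S_plf) (h2 : S_pli) (h3 : S_res) (h4 : S_loc) : S_bdd := by
  classical
  intro F h hC
  have h1' := h1 F h hC
  choose cf Nf tf hNf hplf hcovf using h1'
  obtain ⟨ci, Ni, ti, hNi, hpli, hcovi⟩ := h2 F h hC
  set ι := ({τ // τ ∈ h.roots.toFinset} × Fin F.natDegree) ⊕ Fin F.natDegree with hι
  set e := Fintype.equivFin ι with he
  set tt : ι → ℂ → ℂ × ℂ := fun x => Sum.elim (fun y => tf y.1.1 y.2) ti x with htt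
  obtain ⟨c, hc⟩ := Finset.exists_le (α := ℝᵒᵈ)
    (insert (OrderDual.toDual ci) (h.roots.toFinset.image fun τ => OrderDual.toDual (cf τ)))
  have hci : OrderDual.ofDual c ≤ ci := hc _ (Finset.mem_insert_self _ _)
  have hcf : ∀ τ ∈ h.roots.toFinset, OrderDual.ofDual c ≤ cf τ := fun τ hτ =>
    hc _ (Finset.mem_insert_of_mem (Finset.mem_image_of_mem _ hτ))
  refine ⟨Fintype.card ι, fun k => tt (e.symm k), OrderDual.ofDual c, ?_, ?_⟩
  · intro k
    rcases hk : e.symm k with ⟨⟨τ, hτ⟩, j⟩ | j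
    · simp only [hk, htt, Sum.elim_inl]
      exact place_mono (hplf τ j) (hcf τ hτ)
    · simp only [hk, htt, Sum.elim_inr]
      exact place_mono (hpli j) hci
  intro g hg hb
  have hb' : ∀ x : ι, ∃ B c1 : ℝ, ∀ w : ℂ, w.re < c1 → ‖g (tt x w)‖ ≤ B := by
    intro x
    have := hb (e x)
    simpa only [Equiv.symm_apply_apply] using this
  by_cases hT : (TT F h).Nonempty
  swap
  · exact ⟨0, fun p hp => absurd ⟨p, hp⟩ hT⟩
  obtain ⟨⟨z0, v0⟩, hp0⟩ := hT
  have hz0 : h.eval z0 ≠ 0 := hp0.2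
  set γ := g (z0, v0) with hγ
  -- the norm is constant
  obtain ⟨cN, hcN⟩ : ∃ c, ∀ z, h.eval z ≠ 0 → Nm F g γ z = c := by
    refine const_of_bounded hC.hne (fun z hz => Nm_diff h4 hC hg γ hz) ?_ ?_
    · intro τ hτ
      have hτ' : τ ∈ h.roots.toFinset := by
        rw [Multiset.mem_toFinset, mem_roots hC.hne]; exact hτ
      obtain ⟨B, c1, hc1, hB⟩ := fam_bound (t := tf τ) (g := g)
        (fun j => hb' (Sum.inl (⟨τ, hτ'⟩, j))) (cf τ)
      refine ⟨(B + ‖γ‖) ^ F.natDegree, ?_⟩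
      have hN0 : (0:ℝ) < (Nf τ : ℝ) := by exact_mod_cast hNf τ
      filter_upwards [Metric.ball_mem_nhds τ (Real.exp_pos ((Nf τ : ℝ) * c1))] with z hz hne
      refine Nm_bound hC hne fun v hv => ?_
      have hzτ : z - τ ≠ 0 := by
        intro h0
        rw [sub_eq_zero] at h0
        rw [h0] at hne
        exact hne hτ
      set w : ℂ := Complex.log (z - τ) / (Nf τ : ℂ) with hw
      have hNc : (Nf τ : ℂ) ≠ 0 := by exact_mod_cast (hNf τ).ne'
      have hNw : (Nf τ : ℂ) * w = Complex.log (z - τ) := by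
        rw [hw]; field_simp
      have hexp : τ + Complex.exp ((Nf τ : ℂ) * w) = z := by
        rw [hNw, Complex.exp_log hzτ]; ring
      have hre : w.re < c1 := by
        have h5 : ((Nf τ : ℂ) * w).re = (Nf τ : ℝ) * w.re := by simp
        have h6 : ((Nf τ : ℂ) * w).re = Real.log ‖z - τ‖ := by rw [hNw, Complex.log_re]
        have h7 : Real.log ‖z - τ‖ < (Nf τ : ℝ) * c1 := by
          rw [Real.log_lt_iff_lt_exp (norm_pos_iff.2 hzτ)]
          rw [Metric.mem_ball, dist_eq_norm] at hz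
          exact hz
        rw [h5] at h6
        rw [← h6] at h7
        exact lt_of_mul_lt_mul_left h7 hN0.le
      obtain ⟨j, hj⟩ := hcovf τ w (hre.trans_le hc1) v (by rw [hexp]; exact hv)
      rw [hexp] at hj
      rw [← hj]
      exact hB j w hre
    · obtain ⟨B, c1, hc1, hB⟩ := fam_bound (t := ti) (g := g)
        (fun j => hb' (Sum.inr j)) ci
      have hN0 : (0:ℝ) < (Ni : ℝ) := by exact_mod_cast hNi
      refine ⟨(B + ‖γ‖) ^ F.natDegree, Real.exp (-((Ni : ℝ) * c1)), fun z hz hne => ?_⟩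
      refine Nm_bound hC hne fun v hv => ?_
      have hz1 : 0 < ‖z‖ := (Real.exp_pos _).trans hz
      have hz0 : z ≠ 0 := norm_pos_iff.1 hz1
      set w : ℂ := -Complex.log z / (Ni : ℂ) with hw
      have hNc : (Ni : ℂ) ≠ 0 := by exact_mod_cast hNi.ne'
      have hNw : (Ni : ℂ) * w = -Complex.log z := by
        rw [hw]; field_simp
      have hexp : Complex.exp (-((Ni : ℂ) * w)) = z := by
        rw [hNw, neg_neg, Complex.exp_log hz0]
      have hre : w.re < c1 := by
        have h5 : ((Ni : ℂ) * w).re = (Ni : ℝ) * w.re := by simp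
        have h6 : ((Ni : ℂ) * w).re = -Real.log ‖z‖ := by rw [hNw, Complex.neg_re, Complex.log_re]
        have h7 : -Real.log ‖z‖ < (Ni : ℝ) * c1 := by
          have : -((Ni : ℝ) * c1) < Real.log ‖z‖ := by
            rw [Real.lt_log_iff_exp_lt hz1]; exact hz
          linarith
        rw [h5] at h6
        rw [← h6] at h7
        exact lt_of_mul_lt_mul_left h7 hN0.le
      obtain ⟨j, hj⟩ := hcovi w (hre.trans_le hc1) v (by rw [hexp]; exact hv)
      rw [hexp] at hj
      rw [← hj]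
      exact hB j w hre
  have hc0 : cN = 0 := by
    rw [← hcN z0 hz0]
    unfold Nm
    exact Finset.prod_eq_zero ((mem_RR hC hz0 v0).2 hp0) (by rw [← hγ, sub_self])
  -- over every `z` there is a point with `g = γ`
  have hex : ∀ z, h.eval z ≠ 0 → ∃ v, (z, v) ∈ TT F h ∧ g (z, v) = γ := by
    intro z hz
    have h5 := hcN z hz
    rw [hc0] at h5
    unfold Nm at h5
    obtain ⟨v, hv, hv0⟩ := Finset.prod_eq_zero_iff.1 h5
    exact ⟨v, (mem_RR hC hz v).1 hv, sub_eq_zero.1 hv0⟩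
  obtain ⟨A, B, hAB⟩ := hg
  have hdvd : F ∣ A - C (C γ) * B := by
    by_contra hnd
    obtain ⟨a, b, ρ, hρ, hab⟩ := h3 F _ hC.irr hC.deg hnd
    have hz : ∀ z, (ρ * h).eval z = 0 := by
      intro z
      by_cases hz : h.eval z = 0
      · rw [eval_mul, hz, mul_zero]
      · obtain ⟨v, hv, hgv⟩ := hex z hz
        have h5 := congrArg (evalEval z v) hab
        obtain ⟨hB0, hgp⟩ := hAB _ hv
        simp only at hB0 hgp
        rw [hgv, eq_div_iff hB0] at hgp
        rw [evalEval_add, evalEval_mul, evalEval_mul, evalEval_sub, evalEval_mul, evalEval_C,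
          evalEval_C, eval_C, hv.1, ← hgp] at h5
        rw [eval_mul, ← h5]
        ring
    have h6 : ρ * h = 0 := Polynomial.funext fun z => by rw [hz z, eval_zero]
    exact (mul_ne_zero hρ hC.hne) h6
  refine ⟨γ, fun p hp => ?_⟩
  obtain ⟨q, hq⟩ := hdvd
  obtain ⟨hB0, hgp⟩ := hAB _ hp
  have h5 := congrArg (evalEval p.1 p.2) hq
  rw [evalEval_mul, evalEval_sub, evalEval_mul, evalEval_C, eval_C, hp.1, zero_mul] at h5
  rw [hgp, div_eq_iff hB0]
  linear_combination h5

end Pool.Agent.W101.EC
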